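import Mathlib

set_option autoImplicit false

namespace Pool.Agent.Results.MP_a43c1c_co.Fano

open Finset

/-- the pairs of `[n]` -/
abbrev P (n : ℕ) := {p : Fin n × Fin n // p.1 < p.2}

/-- the edge set of the clique on `U` -/
def clique {n : ℕ} (U : Finset (Fin n)) : Finset (P n) :=
  univ.filter fun p => p.1.1 ∈ U ∧ p.1.2 ∈ U

/-- no two distinct members have a copy of `K₄` as symmetric difference -/
def IsCode {n : ℕ} (F : Finset (Finset (P n))) : Prop :=
  ∀ G₁ ∈ F, ∀ G₂ ∈ F, G₁ ≠ G₂ → ∀ U : Finset (Fin n), U.card = 4 → symmDiff G₁ G₂ ≠ clique U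

def sg (a : ZMod 2) : ℤ := if a = 0 then 1 else -1

lemma sg_add (a b : ZMod 2) : sg (a + b) = sg a * sg b := by revert a b; decide

lemma shift {ι : Type} [Fintype ι] [DecidableEq ι] (f : (ι → ZMod 2) → ℤ) (u : ι → ZMod 2) :
    ∑ y, f (y + u) = ∑ y, f y :=
  Fintype.sum_equiv (Equiv.addRight u) _ _ fun _ => rfl

lemma char_zero {ι : Type} [Fintype ι] [DecidableEq ι] (Q : (ι → ZMod 2) → ZMod 2)
    (h : ∀ u v, Q (u + v) = Q u + Q v) (u : ι → ZMod 2) (hu : Q u ≠ 0) : ∑ y, sg (Q y) = 0 := by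
  have h1 := shift (fun y => sg (Q y)) u
  have h2 : sg (Q u) = -1 := by simp [sg, hu]
  simp only [h, sg_add, h2, mul_neg, mul_one, Finset.sum_neg_distrib] at h1
  omega

def dot {n : ℕ} (h w : P n → ZMod 2) : ZMod 2 := ∑ p, h p * w p

lemma dot_add {n : ℕ} (h w w' : P n → ZMod 2) : dot h (w + w') = dot h w + dot h w' := by
  simp [dot, mul_add, Finset.sum_add_distrib]

lemma orth {n : ℕ} (w : P n → ZMod 2) :
    ∑ h, sg (dot h w) = if w = 0 then (2 : ℤ) ^ Fintype.card (P n) else 0 := by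
  split_ifs with hw
  · subst hw; simp [dot, sg]
  · obtain ⟨p, hp⟩ := Function.ne_iff.1 hw
    refine char_zero (fun h => dot h w) (fun u v => ?_) (Pi.single p 1) ?_
    · simp [dot, add_mul, Finset.sum_add_distrib]
    · simpa [dot, Pi.single_apply] using hp

def ind {n : ℕ} (G : Finset (P n)) : P n → ZMod 2 := fun p => if p ∈ G then 1 else 0

lemma cardP (n : ℕ) : Fintype.card (P n) = n.choose 2 := by
  rw [Fintype.card_subtype, ← Finset.univ_product_univ, Finset.card_product_filter_lt]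
  simp

lemma card_clique {n : ℕ} (S : Finset (Fin n)) : (clique S).card = S.card.choose 2 := by
  rw [← Finset.card_product_filter_lt, ← Finset.card_image_of_injective _ Subtype.val_injective]
  congr 1
  ext p
  simp only [clique, Finset.mem_image, Finset.mem_filter, Finset.mem_univ, true_and,
    Finset.mem_product]
  constructor
  · rintro ⟨q, hq, rfl⟩; exact ⟨hq, q.2⟩
  · rintro ⟨h1, h2⟩; exact ⟨⟨p, h2⟩, h1, rfl⟩

def L (i : Fin 7) : Finset ℕ := 
  {(i.val + 2) % 7, (i.val + 4) % 7, (i.val + 5) % 7, (i.val + 6) % 7}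

lemma L_lt : ∀ i, ∀ a ∈ L i, a < 7 := by decide

def U (n : ℕ) (i : Fin 7) : Finset (Fin n) := univ.filter fun v => v.val ∈ L i

lemma card_U (n : ℕ) (hn : 7 ≤ n) (i : Fin 7) : (U n i).card = 4 := by
  rw [← Finset.card_image_of_injective _ Fin.val_injective]
  have : (U n i).image Fin.val = L i := by
    ext a
    simp only [U, Finset.mem_image, Finset.mem_filter, Finset.mem_univ, true_and]
    constructor
    · rintro ⟨v, hv, rfl⟩; exact hv
    · intro h; exact ⟨⟨a, by have := L_lt i a h; omega⟩, h, rfl⟩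
  rw [this]
  exact (by decide : ∀ i, (L i).card = 4) i

lemma fano (a b : ℕ) (h : a < b) :
    ∑ i : Fin 7, (if a ∈ L i ∧ b ∈ L i then (1 : ZMod 2) else 0) = 0 := by
  by_cases hb : b < 7
  · have ha : a < 7 := by omega
    interval_cases b <;> interval_cases a <;> decide
  · refine Finset.sum_eq_zero fun i _ => if_neg fun hh => hb (L_lt i b hh.2)

lemma bias {n : ℕ} (h : P n → ZMod 2) :
    -5 ≤ ∑ i : Fin 7, sg (dot h (ind (clique (U n i)))) := by
  have e : ∑ i : Fin 7, dot h (ind (clique (U n i))) = 0 := by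
    simp only [dot]
    rw [Finset.sum_comm]
    refine Finset.sum_eq_zero fun p _ => ?_
    rw [← Finset.mul_sum]
    have := fano p.1.1 p.1.2 p.2
    simp only [ind, clique, U, Finset.mem_filter, Finset.mem_univ, true_and]
    rw [this, mul_zero]
  revert e
  simp only [Fin.sum_univ_seven]
  generalize dot h (ind (clique (U n 0))) = a0; generalize dot h (ind (clique (U n 1))) = a1
  generalize dot h (ind (clique (U n 2))) = a2; generalize dot h (ind (clique (U n 3))) = a3
  generalize dot h (ind (clique (U n 4))) = a4; generalize dot h (ind (clique (U n 5))) = a5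
  generalize dot h (ind (clique (U n 6))) = a6
  revert a0 a1 a2 a3 a4 a5 a6; decide

lemma ind_eq {n : ℕ} (G₁ G₂ G : Finset (P n)) (h : ind G + (ind G₁ + ind G₂) = 0) :
    symmDiff G₁ G₂ = G := by
  ext p
  have := congrFun h p
  simp only [ind, Pi.add_apply, Pi.zero_apply] at this
  simp only [Finset.mem_symmDiff]
  revert this
  by_cases h1 : p ∈ G₁ <;> by_cases h2 : p ∈ G₂ <;> by_cases h3 : p ∈ G <;>
    simp only [h1, h2, h3] <;> decide

lemma pair {n : ℕ} (hn : 7 ≤ n) (F : Finset (Finset (P n))) (hF : IsCode F)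
    (G₁ G₂ : Finset (P n)) (h1 : G₁ ∈ F) (h2 : G₂ ∈ F) :
    ∑ h, (∑ i : Fin 7, sg (dot h (ind (clique (U n i)))) + 5) *
      (sg (dot h (ind G₁)) * sg (dot h (ind G₂))) =
      if G₁ = G₂ then 5 * (2 : ℤ) ^ Fintype.card (P n) else 0 := by
  have e : ∑ h, (∑ i : Fin 7, sg (dot h (ind (clique (U n i)))) + 5) *
      (sg (dot h (ind G₁)) * sg (dot h (ind G₂)))
      = ∑ i : Fin 7, ∑ h, sg (dot h (ind (clique (U n i)) + (ind G₁ + ind G₂))) +
        5 * ∑ h, sg (dot h (ind G₁ + ind G₂)) := by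
    rw [Finset.sum_comm, Finset.mul_sum, ← Finset.sum_add_distrib]
    refine Finset.sum_congr rfl fun h _ => ?_
    simp only [dot_add, sg_add, ← Finset.sum_mul]
    ring
  rw [e]
  simp only [orth]
  rw [Finset.sum_eq_zero]
  · split_ifs with a b b
    · simp
    · exfalso
      have := ind_eq G₁ G₂ ∅ (by rw [a]; funext p; simp [ind])
      exact b (symmDiff_eq_bot.1 this)
    · exfalso
      subst b
      exact a (by
        funext p; simp only [Pi.add_apply, Pi.zero_apply]; exact CharTwo.add_self_eq_zero _)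
    · simp
  · intro i _
    rw [if_neg]
    intro hx
    have := ind_eq G₁ G₂ _ hx
    by_cases b : G₁ = G₂
    · subst b
      have h6 := card_clique (U n i)
      rw [← this, card_U n hn i, symmDiff_self] at h6
      exact absurd h6 (by simp [Nat.choose])
    · exact hF G₁ h1 G₂ h2 b _ (card_U n hn i) this

theorem result : ∀ n ≥ 7, ∀ F : Finset (Finset (P n)), IsCode F →
    12 * F.card ≤ 5 * 2 ^ n.choose 2 := by
  intro n hn F hF
  have h1 : ∑ G₁ ∈ F, ∑ G₂ ∈ F, ∑ h, (∑ i : Fin 7, sg (dot h (ind (clique (U n i)))) + 5) *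
      (sg (dot h (ind G₁)) * sg (dot h (ind G₂))) =
      F.card * (5 * (2 : ℤ) ^ Fintype.card (P n)) := by
    refine (Finset.sum_congr rfl fun G₁ h1 => Finset.sum_congr rfl fun G₂ h2 =>
      pair hn F hF G₁ G₂ h1 h2).trans ?_
    rw [Finset.sum_congr rfl fun G₁ h1 => by rw [Finset.sum_ite_eq, if_pos h1]]
    simp
  have h2 : ∑ G₁ ∈ F, ∑ G₂ ∈ F, ∑ h, (∑ i : Fin 7, sg (dot h (ind (clique (U n i)))) + 5) *
      (sg (dot h (ind G₁)) * sg (dot h (ind G₂))) =
      ∑ h, (∑ i : Fin 7, sg (dot h (ind (clique (U n i)))) + 5) *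
        (∑ G ∈ F, sg (dot h (ind G))) ^ 2 := by
    refine (Finset.sum_congr rfl fun G₁ _ => Finset.sum_comm).trans (Finset.sum_comm.trans ?_)
    refine Finset.sum_congr rfl fun h _ => ?_
    generalize (∑ i : Fin 7, sg (dot h (ind (clique (U n i)))) + 5 : ℤ) = c
    rw [sq, Finset.sum_mul_sum]
    simp only [Finset.mul_sum]
  have h3 := Finset.single_le_sum (s := (univ : Finset (P n → ZMod 2)))
    (f := fun h => (∑ i : Fin 7, sg (dot h (ind (clique (U n i)))) + 5) *
      (∑ G ∈ F, sg (dot h (ind G))) ^ 2)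
    (fun h _ => mul_nonneg (by have := bias h; omega) (sq_nonneg _)) (Finset.mem_univ 0)
  have h4 : ∀ w : P n → ZMod 2, sg (dot 0 w) = 1 := by intro w; simp [dot, sg]
  simp only [h4, Finset.sum_const, Finset.card_univ, nsmul_eq_mul, mul_one,
    Fintype.card_fin] at h3
  rw [h2, cardP] at h1
  rw [h1] at h3
  rcases Nat.eq_zero_or_pos F.card with h0 | h0
  · simp [h0]
  · have h6 : (0 : ℤ) < F.card := by exact_mod_cast h0
    have h7 : (12 * F.card : ℤ) ≤ 5 * 2 ^ n.choose 2 := by
      refine le_of_mul_le_mul_left ?_ h6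
      push_cast at h3
      nlinarith
    exact_mod_cast h7

end Pool.Agent.Results.MP_a43c1c_co.Fano
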